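import Mathlib
import Pool.Agent.Lib.lead.Plactic

set_option autoImplicit false

namespace Pool.Agent.Results.MP_a663df_lc.RecursiveOrder
open LeadPlactic

/-- value in `P(A)` of a word in variables and letter constants -/
def evalWord {A : Type} [LinearOrder A] (σ : ℕ → Plactic A) (u : List (ℕ ⊕ A)) : Plactic A :=
  (u.map (Sum.elim σ gen)).prod

/-- the finite system of equations `S` has a solution in `P(A)` -/
def Solvable (A : Type) [LinearOrder A] (S : List (List (ℕ ⊕ A) × List (ℕ ⊕ A))) : Prop :=
  ∃ σ : ℕ → Plactic A, ∀ e ∈ S, evalWord σ e.1 = evalWord σ e.2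

def sys {A : Type} (a b : A) : List (List (ℕ ⊕ A) × List (ℕ ⊕ A)) :=
  [([.inr b, .inr a, .inl 0], [.inr a, .inr b, .inl 0]),
   ([.inl 0, .inr a, .inr b], [.inl 0, .inr b, .inr a]),
   ([.inl 0, .inl 0, .inr a], [.inl 0, .inr a, .inl 0]),
   ([.inr b, .inl 0, .inl 0], [.inl 0, .inr b, .inl 0])]

theorem sys_iff {A : Type} [LinearOrder A] {a b : A} (hab : a < b) :
    Solvable A (sys a b) ↔ ∃ c, a < c ∧ c < b := by
  constructor
  · rintro ⟨σ, h⟩
    by_contra hc
    push Not at hc
    let f : A → Function.End ℕ := fun x =>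
      if x = a then Nat.succ else if x = b then Nat.pred else id
    have fa : f a = Nat.succ := by simp [f]
    have fb : f b = Nat.pred := by simp [f, hab.ne']
    have comm : ∀ x z, x < z → ¬ (x = a ∧ z = b) → f x * f z = f z * f x := by
      intro x z hxz hn
      by_cases h1 : x = a
      · have h2 : z ≠ b := fun h => hn ⟨h1, h⟩
        have h3 : z ≠ a := by rw [← h1]; exact hxz.ne'
        have : f z = 1 := by simp [f, h2, h3]; rfl
        simp [this]
      · by_cases h2 : x = b
        · have h3 : z ≠ b := by rw [← h2]; exact hxz.ne'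
          have h4 : z ≠ a := by rintro rfl; exact absurd (h2 ▸ hxz) hab.not_gt
          have : f z = 1 := by simp [f, h3, h4]; rfl
          simp [this]
        · have : f x = 1 := by simp [f, h1, h2]; rfl
          simp [this]
    let θ : Plactic A →* Function.End ℕ := PresentedMonoid.lift f (by
      rintro _ _ (⟨x, y, z, h1, h2, rfl, rfl⟩ | ⟨x, y, z, h1, h2, rfl, rfl⟩) <;>
        simp only [FreeMonoid.lift_ofList, List.map, List.prod_cons, List.prod_nil, mul_one]
      · by_cases hn : x = a ∧ z = b
        · obtain ⟨rfl, rfl⟩ := hn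
          have : y = x := by
            by_contra hy
            exact absurd h2 (not_lt.2 (hc y (lt_of_le_of_ne h1 (Ne.symm hy))))
          rw [this, fa, fb]; rfl
        · rw [← mul_assoc, comm x z (h1.trans_lt h2) hn, mul_assoc]
      · by_cases hn : x = a ∧ z = b
        · obtain ⟨rfl, rfl⟩ := hn
          have : y = z := le_antisymm h2 (hc y h1)
          rw [this, fa, fb]; rfl
        · rw [comm x z (h1.trans_le h2) hn])
    have θg : ∀ x, θ (gen x) = f x := fun _ => rfl
    have form : ∀ m, ∃ s t : ℕ, ∀ x, θ m x = s + (x - t) := by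
      intro m
      obtain ⟨l, rfl⟩ := mk_surj m
      induction l with
      | nil => exact ⟨0, 0, fun x => by simp [mk_nil]; rfl⟩
      | cons y l ih =>
        obtain ⟨s, t, h⟩ := ih
        have e : ∀ x, θ (mk (y :: l)) x = f y (s + (x - t)) := by
          intro x; rw [mk_cons, map_mul, θg, ← h]; rfl
        simp only [e]
        by_cases h1 : y = a
        · exact ⟨s + 1, t, fun x => by rw [h1, fa]; simp only [Nat.succ_eq_add_one]; omega⟩
        · by_cases h2 : y = b
          · rw [h2, fb]
            rcases Nat.eq_zero_or_pos s with rfl | hs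
            · exact ⟨0, t + 1, fun x => by simp only [Nat.pred_eq_sub_one]; omega⟩
            · exact ⟨s - 1, t, fun x => by simp only [Nat.pred_eq_sub_one]; omega⟩
          · exact ⟨s, t, fun x => by simp [f, h1, h2]⟩
    obtain ⟨s, t, hX⟩ := form (σ 0)
    simp only [sys, List.forall_mem_cons, evalWord, List.map, List.prod_cons, List.prod_nil,
      Sum.elim_inl, Sum.elim_inr, mul_one] at h
    obtain ⟨e1, e2, e3, e4, -⟩ := h
    have g1 := congrFun (congrArg θ e1) 0
    have g2 := congrFun (congrArg θ e2) 0
    have g3 := congrFun (congrArg θ e3) (t - 1)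
    have g4 := congrFun (congrArg θ e4) 0
    simp only [map_mul, θg, fa, fb, Function.End.mul_def, Function.comp, hX, Nat.succ_eq_add_one,
      Nat.pred_eq_sub_one] at g1 g2 g3 g4
    omega
  · rintro ⟨c, h1, h2⟩
    refine ⟨fun _ => gen c, ?_⟩
    simp only [sys, List.forall_mem_cons, evalWord, List.map, List.prod_cons, List.prod_nil,
      Sum.elim_inl, Sum.elim_inr, mul_one, ← mul_assoc]
    exact ⟨(k1 h1.le h2).symm, k2 h1 h2.le, (k2 h1 le_rfl).symm, (k1 le_rfl h2).symm, by simp⟩

open Nat.Partrec in
def key (x : ℕ) : ℕ :=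
  4 * x.unpair.1 + (if x.unpair.2 = 0 then 0 else if x.unpair.2 = 1 then 2 else
    bif (Code.evaln x.unpair.2 (Denumerable.ofNat Code x.unpair.1) 0).isSome then 1 else 3)

open Nat.Partrec in
theorem key_prim : Primrec key := by
  have h1 : Primrec fun x : ℕ => x.unpair.1 := Primrec.fst.comp Primrec.unpair
  have h2 : Primrec fun x : ℕ => x.unpair.2 := Primrec.snd.comp Primrec.unpair
  refine Primrec.nat_add.comp (Primrec.nat_mul.comp (Primrec.const 4) h1)
    (Primrec.ite (Primrec.eq.comp h2 (Primrec.const 0)) (Primrec.const 0)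
      (Primrec.ite (Primrec.eq.comp h2 (Primrec.const 1)) (Primrec.const 2)
        (Primrec.cond (Primrec.option_isSome.comp ?_) (Primrec.const 1) (Primrec.const 3))))
  exact Code.primrec_evaln.comp ((h2.pair ((Primrec.ofNat Code).comp h1)).pair (Primrec.const 0))

theorem lex_iff (x y : ℕ) : toLex (key x, x) < toLex (key y, y) ↔
    key x < key y ∨ key x = key y ∧ x < y := Prod.Lex.toLex_lt_toLex

open Nat.Partrec in
theorem result : ∃ o : LinearOrder ℕ, ComputablePred (fun p : ℕ × ℕ => o.lt p.1 p.2) ∧
    ¬ ComputablePred (@Solvable ℕ o) := by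
  let o : LinearOrder ℕ := LinearOrder.lift' (fun x : ℕ => toLex (key x, x))
    (fun x y h => (Prod.ext_iff.1 (toLex.injective h)).2)
  have olt : ∀ x y, o.lt x y ↔ key x < key y ∨ key x = key y ∧ x < y := lex_iff
  refine ⟨o, ?_, fun H => ?_⟩
  · have k1 := key_prim.comp (Primrec.fst (α := ℕ) (β := ℕ))
    have k2 := key_prim.comp (Primrec.snd (α := ℕ) (β := ℕ))
    have := (Primrec.nat_lt.comp k1 k2).or ((Primrec.eq.comp k1 k2).and
      (Primrec.nat_lt.comp Primrec.fst Primrec.snd))
    exact this.computablePred.of_eq fun p => (olt _ _).symm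
  · apply ComputablePred.halting_problem 0
    have ha : Primrec fun c : Code => (Sum.inr (Nat.pair (Encodable.encode c) 0) : ℕ ⊕ ℕ) :=
      Primrec.sumInr.comp (Primrec₂.natPair.comp Primrec.encode (Primrec.const 0))
    have hb : Primrec fun c : Code => (Sum.inr (Nat.pair (Encodable.encode c) 1) : ℕ ⊕ ℕ) :=
      Primrec.sumInr.comp (Primrec₂.natPair.comp Primrec.encode (Primrec.const 1))
    have hx : Primrec fun _ : Code => (Sum.inl 0 : ℕ ⊕ ℕ) := Primrec.const _
    have l3 : ∀ {f g h : Code → ℕ ⊕ ℕ}, Primrec f → Primrec g → Primrec h →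
        Primrec fun c => [f c, g c, h c] := fun hf hg hh =>
      Primrec.list_cons.comp hf (Primrec.list_cons.comp hg
        (Primrec.list_cons.comp hh (Primrec.const [])))
    have hF : Primrec fun c : Code =>
        sys (Nat.pair (Encodable.encode c) 0) (Nat.pair (Encodable.encode c) 1) :=
      Primrec.list_cons.comp ((l3 hb ha hx).pair (l3 ha hb hx))
        (Primrec.list_cons.comp ((l3 hx ha hb).pair (l3 hx hb ha))
          (Primrec.list_cons.comp ((l3 hx hx ha).pair (l3 hx ha hx))
            (Primrec.list_cons.comp ((l3 hb hx hx).pair (l3 hx hb hx)) (Primrec.const []))))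
    obtain ⟨inst, H⟩ := H
    refine ComputablePred.of_eq ⟨fun c => inst _, H.comp hF.to_comp⟩ fun c => ?_
    have ka : key (Nat.pair (Encodable.encode c) 0) = 4 * Encodable.encode c := by simp [key]
    have kb : key (Nat.pair (Encodable.encode c) 1) = 4 * Encodable.encode c + 2 := by simp [key]
    rw [@sys_iff ℕ o _ _ ((olt _ _).2 (by omega))]
    show (∃ x, o.lt _ x ∧ o.lt x _) ↔ _
    simp only [olt, ka, kb, Part.dom_iff_mem, Code.evaln_complete]
    constructor
    · rintro ⟨x, h1, h2⟩
      obtain ⟨n, s, rfl⟩ : ∃ n s, x = Nat.pair n s := ⟨_, _, (Nat.pair_unpair x).symm⟩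
      simp only [key, Nat.unpair_pair] at h1 h2
      split_ifs at h1 h2 with s0 s1
      · have : n = Encodable.encode c := by omega
        subst this s0
        omega
      · have : n = Encodable.encode c := by omega
        subst this s1
        omega
      · cases hs : (Code.evaln s (Denumerable.ofNat Code n) 0).isSome
        · simp only [hs, cond_false] at h1 h2; omega
        · simp only [hs, cond_true] at h1 h2
          have : n = Encodable.encode c := by omega
          subst this
          rw [Denumerable.ofNat_encode, Option.isSome_iff_exists] at hs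
          obtain ⟨y, hy⟩ := hs
          exact ⟨y, s, hy⟩
    · rintro ⟨y, s, hy⟩
      have : (Code.evaln (s + 2) c 0).isSome = true :=
        Option.isSome_iff_exists.2 ⟨y, Code.evaln_mono (by omega) hy⟩
      refine ⟨Nat.pair (Encodable.encode c) (s + 2), ?_⟩
      simp [key, this]

end Pool.Agent.Results.MP_a663df_lc.RecursiveOrder
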